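import Pool.Agent.H46.Stab.Radial

/-!
# M2: second variation at `c η`, `η = |x|^{-(n-2)/2} g(log|x|)`
-/

set_option autoImplicit false

open MeasureTheory Set Filter Topology
open scoped ContDiff

namespace Pool.Agent.H94.Stab

open H46

variable {n : ℕ} {Ω : Set (E n)} {f F : ℝ → ℝ} {u : E n → ℝ}

/-- the test function `c η` -/
noncomputable def ceta (u : E n → ℝ) (g : ℝ → ℝ) (x : E n) : ℝ :=
  cc u x * (‖x‖ ^ (-(((n : ℝ) - 2) / 2)) * g (Real.log ‖x‖))

theorem H46.expo_ne (hn : 3 ≤ n) : -(((n : ℝ) - 2) / 2) ≠ 0 := by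
  have : (3 : ℝ) ≤ n := by exact_mod_cast hn
  intro h
  linarith

theorem test_ceta (hn : 3 ≤ n) (h : Stable Ω f F u) {g : ℝ → ℝ} (hg : Bump1 g)
    (hsub : ∀ x : E n, x ≠ 0 → Real.log ‖x‖ ∈ tsupport g → x ∈ Ω) : Test Ω (ceta u g) :=
  (test_rad (expo_ne hn) hg hsub).mul_left (contDiff_cc h.smooth)

/-- gradient of `c`. -/
theorem pd_cc (hu : ContDiff ℝ ∞ u) (i : Fin n) (x : E n) :
    pd i (cc u) x = pd i u x + ∑ j, x j * pd i (pd j u) x := by
  have hd : ∀ j : Fin n, DifferentiableAt ℝ (fun y : E n => y j) x := fun j =>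
    (coord_contDiff j (m := 1)).differentiable (by norm_num) x
  have hd2 : ∀ j : Fin n, DifferentiableAt ℝ (pd j u) x := fun j =>
    (contDiff_pd_infty j hu).differentiable (by simp) x
  unfold cc
  rw [pd_sum (g := fun j (y : E n) => y j * pd j u y) i (fun j _ => (hd j).mul (hd2 j))]
  have e : ∀ j, pd i (fun y : E n => y j * pd j u y) x =
      (if i = j then pd j u x else 0) + x j * pd i (pd j u) x := by
    intro j
    rw [pd_mul i (hd j) (hd2 j), pd_coord]
    split_ifs <;> ring
  simp_rw [e]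
  rw [Finset.sum_add_distrib, Finset.sum_ite_eq, if_pos (Finset.mem_univ i)]

/-- `Δ c = -2 f(u) - f'(u) c` in `Ω`. -/
theorem laplace_cc (h : Stable Ω f F u) {x : E n} (hx : x ∈ Ω) :
    ∑ i, pd i (pd i (cc u)) x = - (2 * f (u x)) - deriv f (u x) * cc u x := by
  have hd : ∀ j : Fin n, DifferentiableAt ℝ (fun y : E n => y j) x := fun j =>
    (coord_contDiff j (m := 1)).differentiable (by norm_num) x
  have hs2 : ∀ i j : Fin n, ContDiff ℝ ∞ (pd i (pd j u)) := fun i j =>
    contDiff_pd_infty i (contDiff_pd_infty j h.smooth)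
  have hd2 : ∀ i j : Fin n, DifferentiableAt ℝ (pd i (pd j u)) x := fun i j =>
    (hs2 i j).differentiable (by simp) x
  have e0 : ∀ i, pd i (pd i (cc u)) x =
      pd i (pd i u) x + (pd i (pd i u) x + ∑ j, x j * pd i (pd i (pd j u)) x) := by
    intro i
    have : pd i (cc u) = fun x => pd i u x + ∑ j, x j * pd i (pd j u) x :=
      funext fun y => pd_cc h.smooth i y
    have hds : DifferentiableAt ℝ (fun y : E n => ∑ j, y j * pd i (pd j u) y) x :=
      DifferentiableAt.fun_sum fun j _ => (hd j).mul (hd2 i j)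
    rw [this, pd_add i ((contDiff_pd_infty i h.smooth).differentiable (by simp) x) hds,
      pd_sum (g := fun j (y : E n) => y j * pd i (pd j u) y) i
        (fun j _ => (hd j).mul (hd2 i j))]
    have e : ∀ j, pd i (fun y : E n => y j * pd i (pd j u) y) x =
        (if i = j then pd i (pd j u) x else 0) + x j * pd i (pd i (pd j u)) x := by
      intro j
      rw [pd_mul i (hd j) (hd2 i j), pd_coord]
      split_ifs <;> ring
    simp_rw [e]
    rw [Finset.sum_add_distrib, Finset.sum_ite_eq, if_pos (Finset.mem_univ i)]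
  simp_rw [e0]
  rw [Finset.sum_add_distrib, Finset.sum_add_distrib, h.eqn x hx, Finset.sum_comm]
  have e1 : ∀ j, ∑ i, x j * pd i (pd i (pd j u)) x = x j * (-(deriv f (u x) * pd j u x)) := by
    intro j
    rw [← Finset.mul_sum, h.eqn_pd hx j]
  simp_rw [e1]
  unfold cc
  rw [Finset.mul_sum]
  have e2 : ∀ j, x j * (-(deriv f (u x) * pd j u x)) = - (deriv f (u x) * (x j * pd j u x)) :=
    fun j => by ring
  simp_rw [e2]
  rw [Finset.sum_neg_distrib]
  ring

/-- integration by parts in the form `∫ φ Δ v = - ∑ ∫ ∂_i φ ∂_i v`. -/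
theorem H46.integral_mul_laplace {φ v : E n → ℝ} (hφ : ContDiff ℝ 1 φ) (hc : HasCompactSupport φ)
    (hv : ContDiff ℝ ∞ v) :
    ∫ x, φ x * ∑ i, pd i (pd i v) x = - ∫ x, ∑ i, pd i φ x * pd i v x := by
  have hi1 : ∀ i : Fin n, Integrable (fun x => φ x * pd i (pd i v) x) volume := fun i =>
    (hφ.continuous.mul (contDiff_pd_infty i (contDiff_pd_infty i hv)).continuous).integrable_of_hasCompactSupport
      hc.mul_right
  have hi2 : ∀ i : Fin n, Integrable (fun x => pd i φ x * pd i v x) volume := fun i =>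
    ((continuous_pd i hφ).mul (contDiff_pd_infty i hv).continuous).integrable_of_hasCompactSupport
      (HasCompactSupport.pd' i hc).mul_right
  simp_rw [Finset.mul_sum]
  rw [integral_finsetSum _ fun i _ => hi1 i, integral_finsetSum _ fun i _ => hi2 i,
    ← Finset.sum_neg_distrib]
  refine Finset.sum_congr rfl fun i _ => ?_
  exact integral_mul_pd i hφ ((contDiff_pd_infty i hv).of_le (by exact_mod_cast le_top)) hc

/-- `|x|² rad (a-2) g = rad a g` for `a ≠ 0`. -/
theorem H46.sq_mul_rad {a : ℝ} (ha : a ≠ 0) (g : ℝ → ℝ) (x : E n) :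
    ‖x‖ ^ 2 * rad (a - 2) g x = rad a g x := by
  by_cases hx : x = 0
  · subst hx
    rw [rad_zero ha]; simp
  · have hpos : 0 < ‖x‖ := norm_pos_iff.2 hx
    unfold rad
    rw [← mul_assoc, ← Real.rpow_natCast, ← Real.rpow_add hpos]
    congr 2
    push_cast
    ring

theorem H46.rad_mul_rad {a b : ℝ} (ha : a ≠ 0) (hab : a + b ≠ 0) (g k : ℝ → ℝ) (x : E n) :
    rad a g x * rad b k x = rad (a + b) (fun t => g t * k t) x := by
  by_cases hx : x = 0
  · subst hx
    rw [rad_zero ha, rad_zero hab, zero_mul]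
  · have hpos : 0 < ‖x‖ := norm_pos_iff.2 hx
    unfold rad
    rw [Real.rpow_add hpos]
    ring

theorem H46.norm_sq_eq_sum (x : E n) : ‖x‖ ^ 2 = ∑ i, x i * x i := by
  rw [EuclideanSpace.norm_sq_eq]
  refine Finset.sum_congr rfl fun i _ => ?_
  rw [Real.norm_eq_abs, sq_abs]; ring

/-- `∂_j |∇u|² = 2 ∑_i u_i u_ij`. -/
theorem H46.pd_gsq (hu : ContDiff ℝ ∞ u) (j : Fin n) (x : E n) :
    pd j (gsq u) x = 2 * ∑ i, pd i u x * pd j (pd i u) x := by
  have hd : ∀ i : Fin n, DifferentiableAt ℝ (pd i u) x := fun i =>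
    (contDiff_pd_infty i hu).differentiable (by simp) x
  unfold gsq
  rw [pd_sum (g := fun i (y : E n) => pd i u y ^ 2) j (fun i _ => (hd i).pow 2), Finset.mul_sum]
  refine Finset.sum_congr rfl fun i _ => ?_
  rw [pd_sq j (hd i)]; ring

/-- Pohozaev identity. -/
theorem H46.pohozaev (h : Stable Ω f F u) {Ψ : E n → ℝ} (hΨ : Test Ω Ψ) :
    2 * ∫ x, cc u x * Ψ x * f (u x) =
      ∫ x, ((2 - (n : ℝ)) * (Ψ x * gsq u x) + 2 * (cc u x * ∑ i, pd i Ψ x * pd i u x)
        - (∑ j, x j * pd j Ψ x) * gsq u x) := by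
  have hcs : ContDiff ℝ ∞ (cc u) := contDiff_cc h.smooth
  have hu := h.smooth
  -- test function `c Ψ`
  have hT : Test Ω (fun x => cc u x * Ψ x) := hΨ.mul_left hcs
  have e1 : ∫ x, cc u x * Ψ x * f (u x) = ∫ x, ∑ i, pd i (fun x => cc u x * Ψ x) x * pd i u x := by
    have := H46.integral_mul_laplace hT.c1 hT.compact hu
    rw [← neg_eq_iff_eq_neg, ← integral_neg] at this
    rw [← this]
    congr 1
    ext x
    by_cases hx : x ∈ Ω
    · rw [h.eqn x hx]; ring
    · rw [hΨ.zero_of_notMem hx]; ring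
  have hcd : ∀ x, DifferentiableAt ℝ (cc u) x := fun x => hcs.differentiable (by simp) x
  have hΨd : ∀ x, DifferentiableAt ℝ Ψ x := fun x => hΨ.smooth.differentiable (by simp) x
  have e2 : ∀ x, ∑ i, pd i (fun x => cc u x * Ψ x) x * pd i u x =
      (Ψ x * gsq u x + cc u x * ∑ i, pd i Ψ x * pd i u x) +
        ∑ j, (x j * Ψ x) * (pd j (gsq u) x / 2) := by
    intro x
    have e3 : ∀ i, pd i (fun x => cc u x * Ψ x) x * pd i u x =
        (Ψ x * pd i u x ^ 2 + cc u x * (pd i Ψ x * pd i u x)) +
          ∑ j, x j * Ψ x * (pd i u x * pd j (pd i u) x) := by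
      intro i
      rw [pd_mul i (hcd x) (hΨd x), pd_cc hu]
      rw [add_mul, add_mul, add_mul, Finset.sum_mul, Finset.sum_mul]
      have : ∀ j, x j * pd i (pd j u) x * Ψ x * pd i u x =
          x j * Ψ x * (pd i u x * pd j (pd i u) x) := by
        intro j
        rw [pd_comm (hu.of_le two_le_infty) i j x]; ring
      simp_rw [this]
      ring
    simp_rw [e3]
    rw [Finset.sum_add_distrib, Finset.sum_add_distrib, ← Finset.mul_sum, ← Finset.mul_sum,
      Finset.sum_comm]
    congr 1
    refine Finset.sum_congr rfl fun j _ => ?_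
    rw [H46.pd_gsq hu j x, ← Finset.mul_sum]
    ring
  have hxΨ : ∀ j : Fin n, Test Ω (fun x : E n => x j * Ψ x) := fun j =>
    hΨ.mul_left (coord_contDiff j)
  have hgc : Continuous (gsq u) := (contDiff_gsq hu).continuous
  have hg1 : ContDiff ℝ 1 (gsq u) := (contDiff_gsq hu).of_le (by exact_mod_cast le_top)
  have hpc : ∀ i : Fin n, Continuous (pd i u) := fun i => (contDiff_pd_infty i hu).continuous
  have i1 : Integrable (fun x => Ψ x * gsq u x + cc u x * ∑ i, pd i Ψ x * pd i u x) volume := by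
    refine Integrable.add ?_ ?_
    · exact (hΨ.continuous.mul hgc).integrable_of_hasCompactSupport hΨ.compact.mul_right
    · have : (fun x => cc u x * ∑ i, pd i Ψ x * pd i u x) =
          fun x => ∑ i, cc u x * (pd i Ψ x * pd i u x) := by
        ext x; rw [Finset.mul_sum]
      rw [this]
      refine integrable_finsetSum _ fun i _ => ?_
      exact (hcs.continuous.mul ((hΨ.pd i).continuous.mul (hpc i))).integrable_of_hasCompactSupport
        ((hΨ.pd i).compact.mul_right.mul_left)
  have i2 : ∀ j : Fin n, Integrable (fun x : E n => x j * Ψ x * (pd j (gsq u) x / 2)) volume := by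
    intro j
    exact ((hxΨ j).continuous.mul ((continuous_pd j hg1).div_const 2)).integrable_of_hasCompactSupport
      (hxΨ j).compact.mul_right
  have i3 : ∀ j : Fin n, Integrable (fun x : E n => pd j (fun x : E n => x j * Ψ x) x * gsq u x) volume := by
    intro j
    exact (((hxΨ j).pd j).continuous.mul hgc).integrable_of_hasCompactSupport
      ((hxΨ j).pd j).compact.mul_right
  rw [e1]
  simp_rw [e2]
  rw [integral_add i1 (integrable_finsetSum _ fun j _ => i2 j), integral_finsetSum _ fun j _ => i2 j]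
  have e4 : ∀ j : Fin n, ∫ x : E n, x j * Ψ x * (pd j (gsq u) x / 2) =
      -(1 / 2) * ∫ x, pd j (fun x : E n => x j * Ψ x) x * gsq u x := by
    intro j
    have := integral_mul_pd j (hxΨ j).c1 hg1 (hxΨ j).compact
    have e5 : ∀ x : E n, x j * Ψ x * (pd j (gsq u) x / 2) =
        (1 / 2) * (x j * Ψ x * pd j (gsq u) x) := fun x => by ring
    simp_rw [e5]
    rw [integral_const_mul, this]
    ring
  simp_rw [e4]
  rw [← Finset.mul_sum, ← integral_finsetSum _ fun j _ => i3 j]
  rw [mul_add, ← integral_const_mul, ← mul_assoc, ← integral_const_mul, ← integral_add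
    (i1.const_mul 2) ((integrable_finsetSum _ fun j _ => i3 j).const_mul _)]
  congr 1
  ext x
  have e6 : ∀ j, pd j (fun x : E n => x j * Ψ x) x = Ψ x + x j * pd j Ψ x := by
    intro j
    rw [pd_mul j ((coord_contDiff j (m := 1)).differentiable (by norm_num) x) (hΨd x), pd_coord,
      if_pos rfl, one_mul]
  simp_rw [e6]
  rw [← Finset.sum_mul, Finset.sum_add_distrib]
  simp only [Finset.sum_const, Finset.card_univ, Fintype.card_fin, nsmul_eq_mul]
  ring

theorem radial_identity (hn : 3 ≤ n) (h : Stable Ω f F u) {g : ℝ → ℝ} (hg : Bump1 g)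
    (hsub : ∀ x : E n, x ≠ 0 → Real.log ‖x‖ ∈ tsupport g → x ∈ Ω) :
    Qf f u (ceta u g) =
      RR u (fun t => deriv g t ^ 2 + (6 - (n : ℝ)) * g t * deriv g t
        - ((n : ℝ) - 2) / 2 * (4 - ((n : ℝ) - 2) / 2) * g t ^ 2)
      - DD u (fun t => 2 * g t * deriv g t) := by
  have hn' : (3 : ℝ) ≤ n := by exact_mod_cast hn
  have hu := h.smooth
  have hcs : ContDiff ℝ ∞ (cc u) := contDiff_cc hu
  have ha : -(((n : ℝ) - 2) / 2) ≠ 0 := by intro h'; linarith
  have hb : 2 - (n : ℝ) ≠ 0 := by intro h'; linarith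
  have hnn : -(n : ℝ) ≠ 0 := by intro h'; linarith
  have hg1 : ContDiff ℝ 1 g := hg.1.of_le (by exact_mod_cast le_top)
  have hdg : ContDiff ℝ ∞ (deriv g) := by
    have := hg.1.iterate_deriv 1
    simpa using this
  have hdc : HasCompactSupport (deriv g) := hg.2.deriv
  set a : ℝ := -(((n : ℝ) - 2) / 2) with hadef
  set η : E n → ℝ := rad a g with hη
  have hηT : Test Ω η := test_rad ha hg hsub
  set g2 : ℝ → ℝ := fun t => g t * g t with hg2
  have hg2B : Bump1 g2 := ⟨hg.1.mul hg.1, hg.2.mul_left⟩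
  set Ψ : E n → ℝ := rad (2 - (n : ℝ)) g2 with hΨ
  have hg2sub : tsupport g2 ⊆ tsupport g := tsupport_mul_subset_left
  have hΨT : Test Ω Ψ := test_rad hb hg2B fun x h0 h1 => hsub x h0 (hg2sub h1)
  have hΨη : ∀ x, Ψ x = η x * η x := by
    intro x
    have hab : a + a = 2 - (n : ℝ) := by rw [hadef]; ring
    rw [hη, H46.rad_mul_rad ha (by rw [hab]; exact hb), hab]
  have hηd : ∀ x, DifferentiableAt ℝ η x := fun x => hηT.smooth.differentiable (by simp) x
  have hΨd : ∀ x, DifferentiableAt ℝ Ψ x := fun x => hΨT.smooth.differentiable (by simp) x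
  have hcd : ∀ x, DifferentiableAt ℝ (cc u) x := fun x => hcs.differentiable (by simp) x
  have hpdΨ' : ∀ i x, pd i Ψ x = 2 * η x * pd i η x := by
    intro i x
    have : Ψ = fun y => η y * η y := funext hΨη
    rw [this, pd_mul i (hηd x) (hηd x)]
    ring
  have hce : ceta u g = fun x => cc u x * η x := rfl
  -- step A
  have hT : Test Ω (fun x => cc u x * Ψ x) := hΨT.mul_left hcs
  have eA : ∀ x, gsq (ceta u g) x =
      (∑ i, pd i (fun x => cc u x * Ψ x) x * pd i (cc u) x) + cc u x ^ 2 * gsq η x := by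
    intro x
    unfold gsq
    rw [Finset.mul_sum, ← Finset.sum_add_distrib]
    refine Finset.sum_congr rfl fun i _ => ?_
    rw [hce, pd_mul i (hcd x) (hηd x), pd_mul i (hcd x) (hΨd x), hpdΨ' i x, hΨη x]
    ring
  have hηg : Continuous (gsq η) := continuous_gsq hηT.c1
  have hηgc : HasCompactSupport (gsq η) := by
    have : gsq η = fun x => ∑ i, (pd i η x) ^ 2 := rfl
    rw [this]
    refine hηT.compact.of_isClosed_subset (isClosed_tsupport _) ?_
    refine closure_minimal ?_ (isClosed_tsupport η)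
    intro x hx
    by_contra hcon
    apply hx
    refine Finset.sum_eq_zero fun i _ => ?_
    have : pd i η x = 0 := by
      by_contra h2
      exact hcon (tsupport_pd_subset i η (subset_tsupport _ h2))
    rw [this]; norm_num
  have iA1 : Integrable (fun x => ∑ i, pd i (fun x => cc u x * Ψ x) x * pd i (cc u) x) volume := by
    refine integrable_finsetSum _ fun i _ => ?_
    exact ((hT.pd i).continuous.mul (contDiff_pd_infty i hcs).continuous).integrable_of_hasCompactSupport
      (hT.pd i).compact.mul_right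
  have iA2 : Integrable (fun x => cc u x ^ 2 * gsq η x) volume :=
    ((hcs.continuous.pow 2).mul hηg).integrable_of_hasCompactSupport hηgc.mul_left
  have iA3 : Integrable (fun x => deriv f (u x) * (cc u x * η x) ^ 2) volume := by
    have hc : HasCompactSupport (fun x => (cc u x * η x) ^ 2) := by
      have : (fun x => (cc u x * η x) ^ 2) = fun x => (cc u x * cc u x * η x) * η x := by
        ext x; ring
      rw [this]
      exact hηT.compact.mul_left
    exact ((h.deriv_f_cont.comp h.continuous).mul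
      ((hcs.continuous.mul hηT.continuous).pow 2)).integrable_of_hasCompactSupport hc.mul_left
  have iA4 : Integrable (fun x => cc u x * Ψ x * ∑ i, pd i (pd i (cc u)) x) volume := by
    refine (hT.continuous.mul (continuous_finsetSum _ fun i _ =>
      (contDiff_pd_infty i (contDiff_pd_infty i hcs)).continuous)).integrable_of_hasCompactSupport
      hT.compact.mul_right
  have iA5 : Integrable (fun x => cc u x * Ψ x * f (u x)) volume :=
    (hT.continuous.mul (h.f_C1.continuous.comp h.continuous)).integrable_of_hasCompactSupport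
      hT.compact.mul_right
  have eQ : Qf f u (ceta u g) = (∫ x, cc u x ^ 2 * gsq η x) + 2 * ∫ x, cc u x * Ψ x * f (u x) := by
    unfold Qf
    have e1 : (fun x => gsq (ceta u g) x - deriv f (u x) * ceta u g x ^ 2) = fun x =>
        ((∑ i, pd i (fun x => cc u x * Ψ x) x * pd i (cc u) x) + cc u x ^ 2 * gsq η x) -
          deriv f (u x) * (cc u x * η x) ^ 2 := by
      ext x; rw [eA x]; rfl
    have iA12 : Integrable (fun x => (∑ i, pd i (fun x => cc u x * Ψ x) x * pd i (cc u) x) +
        cc u x ^ 2 * gsq η x) volume := iA1.add iA2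
    rw [e1, integral_sub iA12 iA3, integral_add iA1 iA2]
    have e2 := H46.integral_mul_laplace hT.c1 hT.compact hcs
    have e3 : ∫ x, ∑ i, pd i (fun x => cc u x * Ψ x) x * pd i (cc u) x =
        - ∫ x, cc u x * Ψ x * ∑ i, pd i (pd i (cc u)) x := by
      rw [e2, neg_neg]
    rw [e3]
    have e4 : ∫ x, cc u x * Ψ x * ∑ i, pd i (pd i (cc u)) x =
        - (2 * ∫ x, cc u x * Ψ x * f (u x)) - ∫ x, deriv f (u x) * (cc u x * η x) ^ 2 := by
      have iA5' : Integrable (fun x => -(2 * (cc u x * Ψ x * f (u x)))) volume :=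
        (iA5.const_mul 2).neg
      rw [← integral_const_mul, ← integral_neg, ← integral_sub iA5' iA3]
      congr 1
      ext x
      by_cases hx : x ∈ Ω
      · rw [laplace_cc h hx, hΨη x]; ring
      · rw [hΨT.zero_of_notMem hx, hηT.zero_of_notMem hx]; ring
    rw [e4]
    ring
  -- radial computations
  have hpη : ∀ i x, pd i η x = x i * rad (a - 2) (fun t => a * g t + deriv g t) x := fun i x =>
    pd_rad ha hg1 hg.2 i x
  set k : ℝ → ℝ := fun t => (2 - (n : ℝ)) * (g t * g t) + 2 * (g t * deriv g t) with hk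
  have hkc : HasCompactSupport k := by
    have : k = fun t => ((2 - (n : ℝ)) * g t + 2 * deriv g t) * g t := by
      ext t; rw [hk]; ring
    rw [this]
    exact hg.2.mul_left
  have hks : Continuous k := by
    rw [hk]
    exact (continuous_const.mul (hg.1.continuous.mul hg.1.continuous)).add
      (continuous_const.mul (hg.1.continuous.mul hdg.continuous))
  have hpΨ : ∀ i x, pd i Ψ x = x i * rad (-(n : ℝ)) k x := by
    intro i x
    have h1 := pd_rad (n := n) hb (hg2B.1.of_le (by exact_mod_cast le_top)) hg2B.2 i x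
    rw [hΨ, h1]
    congr 1
    have e : (2 - (n : ℝ)) - 2 = -(n : ℝ) := by ring
    rw [e]
    congr 1
    ext t
    rw [hk, hg2]
    have : deriv (fun t => g t * g t) t = 2 * (g t * deriv g t) := by
      rw [deriv_fun_mul (hg1.differentiable (by norm_num) t) (hg1.differentiable (by norm_num) t)]
      ring
    rw [this]
  have e5 : ∀ x, cc u x ^ 2 * gsq η x =
      cc u x ^ 2 * rad (-(n : ℝ)) (fun t => (a * g t + deriv g t) * (a * g t + deriv g t)) x := by
    intro x
    congr 1
    unfold gsq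
    simp_rw [hpη, mul_pow]
    rw [← Finset.sum_mul]
    have e : ∑ i, x i ^ 2 = ‖x‖ ^ 2 := by
      rw [H46.norm_sq_eq_sum]
      exact Finset.sum_congr rfl fun i _ => by ring
    rw [e, sq (rad _ _ x)]
    have hne : a - 2 ≠ 0 := by rw [hadef]; intro h'; linarith
    have hne2 : a - 2 + (a - 2) ≠ 0 := by rw [hadef]; intro h'; linarith
    rw [H46.rad_mul_rad hne hne2]
    have : a - 2 + (a - 2) = -(n : ℝ) - 2 := by rw [hadef]; ring
    rw [this, H46.sq_mul_rad hnn]
  have e6 : ∀ x, (2 - (n : ℝ)) * (Ψ x * gsq u x) + 2 * (cc u x * ∑ i, pd i Ψ x * pd i u x)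
        - (∑ j, x j * pd j Ψ x) * gsq u x =
      cc u x ^ 2 * rad (-(n : ℝ)) (fun t => 2 * k t) x -
        gsq u x * rad (2 - (n : ℝ)) (fun t => 2 * g t * deriv g t) x := by
    intro x
    have e7 : ∑ i, pd i Ψ x * pd i u x = rad (-(n : ℝ)) k x * cc u x := by
      unfold cc
      rw [Finset.mul_sum]
      refine Finset.sum_congr rfl fun i _ => ?_
      rw [hpΨ]; ring
    have e8 : ∑ j, x j * pd j Ψ x = rad (2 - (n : ℝ)) k x := by
      have : ∀ j, x j * pd j Ψ x = x j * x j * rad (-(n : ℝ)) k x := fun j => by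
        rw [hpΨ]; ring
      simp_rw [this]
      rw [← Finset.sum_mul, ← H46.norm_sq_eq_sum]
      have h2 : -(n : ℝ) = (2 - (n : ℝ)) - 2 := by ring
      rw [h2, H46.sq_mul_rad hb]
    rw [e7, e8]
    have e9 : rad (2 - (n : ℝ)) k x = (2 - (n : ℝ)) * Ψ x +
        rad (2 - (n : ℝ)) (fun t => 2 * g t * deriv g t) x := by
      rw [hΨ, hk, hg2]; unfold rad; ring
    have e10 : rad (-(n : ℝ)) (fun t => 2 * k t) x = 2 * rad (-(n : ℝ)) k x := by
      unfold rad; ring
    rw [e9, e10]
    ring
  rw [eQ, H46.pohozaev h hΨT]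
  simp_rw [e5, e6]
  have hgg : HasCompactSupport (fun t => (a * g t + deriv g t) * (a * g t + deriv g t)) := by
    have : HasCompactSupport (fun t => a * g t + deriv g t) := by
      refine HasCompactSupport.add ?_ hdc
      exact hg.2.mul_left
    exact this.mul_left
  have c1 : Continuous (fun t => (a * g t + deriv g t) * (a * g t + deriv g t)) := by
    have : Continuous (fun t => a * g t + deriv g t) :=
      (continuous_const.mul hg.1.continuous).add hdg.continuous
    exact this.mul this
  have c2 : Continuous (fun t => 2 * k t) := continuous_const.mul hks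
  have c3 : Continuous (fun t => 2 * g t * deriv g t) :=
    (continuous_const.mul hg.1.continuous).mul hdg.continuous
  have s2 : HasCompactSupport (fun t => 2 * k t) := hkc.mul_left
  have s3 : HasCompactSupport (fun t => 2 * g t * deriv g t) := hdc.mul_left
  have j1 : Integrable (fun x : E n => cc u x ^ 2 *
      rad (-(n : ℝ)) (fun t => (a * g t + deriv g t) * (a * g t + deriv g t)) x) volume :=
    ((hcs.continuous.pow 2).mul (continuous_rad hnn c1 hgg)).integrable_of_hasCompactSupport
      (compact_rad hnn hgg).mul_left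
  have j2 : Integrable (fun x : E n => cc u x ^ 2 * rad (-(n : ℝ)) (fun t => 2 * k t) x) volume :=
    ((hcs.continuous.pow 2).mul (continuous_rad hnn c2 s2)).integrable_of_hasCompactSupport
      (compact_rad hnn s2).mul_left
  have j3 : Integrable (fun x : E n => gsq u x *
      rad (2 - (n : ℝ)) (fun t => 2 * g t * deriv g t) x) volume :=
    ((contDiff_gsq hu).continuous.mul (continuous_rad hb c3 s3)).integrable_of_hasCompactSupport
      (compact_rad hb s3).mul_left
  rw [integral_sub j2 j3, ← add_sub_assoc, ← integral_add j1 j2]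
  unfold RR DD
  congr 1
  · congr 1
    ext x
    unfold rad
    rw [hk, hadef]
    ring
  · congr 1
    ext x
    unfold rad
    ring

end Pool.Agent.H94.Stab
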