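import Pool.Agent.H46.Stab.M2

/-!
# M4: gradient of `c_E`;  M5: transport of perimeters
-/

set_option autoImplicit false

open MeasureTheory Set Filter Topology
open scoped ContDiff

namespace Pool.Agent.H94.Stab

open H46

variable {n : ℕ} {Ω : Set (E n)} {f F : ℝ → ℝ} {u : E n → ℝ}

/-- `∑_j W_ij u_j = ∑_j u_ij u_j + f u_i`. -/
theorem H46.sum_Wt_mul_pd (f : ℝ → ℝ) (u : E n → ℝ) (i : Fin n) (x : E n) :
    ∑ j, Wt f u i j x * pd j u x = (∑ j, pd j u x * pd i (pd j u) x) + f (u x) * pd i u x := by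
  unfold Wt
  have e : ∀ j, (pd i (pd j u) x + f (u x) * nu u i x * nu u j x) * pd j u x =
      pd j u x * pd i (pd j u) x + f (u x) * nu u i x * (nu u j x * pd j u x) := fun j => by ring
  simp_rw [e]
  rw [Finset.sum_add_distrib, ← Finset.mul_sum, sum_nu_mul_pd]
  rw [mul_assoc, mul_comm (nu u i x), gr_mul_nu]

theorem pd_cE (h : Stable Ω f F u) {x : E n} (_hx : x ∈ Ω) (i : Fin n) :
    pd i (cE F u) x = ∑ j, Wt f u i j x * pd j u x := by
  rw [H46.sum_Wt_mul_pd]
  have hg : DifferentiableAt ℝ (gsq u) x := (contDiff_gsq h.smooth).differentiable (by simp) x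
  have hu : DifferentiableAt ℝ u x := h.smooth.differentiable (by simp) x
  have hF : DifferentiableAt ℝ (fun y => F (u y)) x :=
    (h.F_deriv (u x)).differentiableAt.comp x hu
  have hg2 : DifferentiableAt ℝ (fun y => gsq u y / 2) x := by
    have := hg.mul_const (2 : ℝ)⁻¹
    simpa only [div_eq_mul_inv] using this
  have hcE : cE F u = fun y => gsq u y / 2 + F (u y) := rfl
  rw [hcE, pd_add (g := fun y => gsq u y / 2) i hg2 hF, pd_comp' i (h.F_deriv (u x)) hu]
  have e : pd i (fun y => gsq u y / 2) x = ∑ j, pd j u x * pd i (pd j u) x := by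
    have : (fun y => gsq u y / 2) = fun y => gsq u y * (1 / 2) := by ext y; ring
    rw [this, pd_mul_const i _ hg, H46.pd_gsq h.smooth]
    ring
  rw [e]

/-- `∑ u_i W_ij u_j = |∇u|² ∑ ν_i W_ij ν_j`. -/
theorem H46.uWu (f : ℝ → ℝ) (u : E n → ℝ) (x : E n) :
    ∑ i, pd i u x * ∑ j, Wt f u i j x * pd j u x =
      gsq u x * ∑ i, ∑ j, nu u i x * Wt f u i j x * nu u j x := by
  rw [Finset.mul_sum]
  refine Finset.sum_congr rfl fun i _ => ?_
  rw [Finset.mul_sum, Finset.mul_sum]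
  refine Finset.sum_congr rfl fun j _ => ?_
  rw [← gr_mul_nu u i x, ← gr_mul_nu u j x, ← gr_mul_gr]
  ring

/-- `K_i = ∑_j u_j u_ij`, `∑ u_i K_i = |∇u|² (νWν - f)`. -/
theorem H46.sum_pd_mul_K (f : ℝ → ℝ) (u : E n → ℝ) (x : E n) :
    ∑ i, pd i u x * ∑ j, pd j u x * pd i (pd j u) x =
      gsq u x * (∑ i, ∑ j, nu u i x * Wt f u i j x * nu u j x) - f (u x) * gsq u x := by
  rw [← H46.uWu]
  simp_rw [H46.sum_Wt_mul_pd, mul_add]
  rw [Finset.sum_add_distrib]
  have : ∑ i, pd i u x * (f (u x) * pd i u x) = f (u x) * gsq u x := by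
    unfold gsq
    rw [Finset.mul_sum]
    exact Finset.sum_congr rfl fun i _ => by ring
  rw [this]
  ring

/-- regularised `|∇u|`. -/
noncomputable def H46.sr (u : E n → ℝ) (e : ℝ) (x : E n) : ℝ := Real.sqrt (gsq u x + e ^ 2)

theorem H46.sr_pos (u : E n → ℝ) {e : ℝ} (he : 0 < e) (x : E n) : 0 < H46.sr u e x :=
  Real.sqrt_pos.2 (add_pos_of_nonneg_of_pos (gsq_nonneg u x) (pow_pos he 2))

theorem H46.sr_sq (u : E n → ℝ) (e : ℝ) (x : E n) : H46.sr u e x ^ 2 = gsq u x + e ^ 2 :=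
  Real.sq_sqrt (add_nonneg (gsq_nonneg u x) (sq_nonneg e))

theorem H46.contDiff_sr (hu : ContDiff ℝ ∞ u) {e : ℝ} (he : 0 < e) :
    ContDiff ℝ ∞ (H46.sr u e) := by
  unfold H46.sr
  refine ContDiff.sqrt ((contDiff_gsq hu).add contDiff_const) fun x => ?_
  exact (add_pos_of_nonneg_of_pos (gsq_nonneg u x) (pow_pos he 2)).ne'

theorem H46.pd_sr (hu : ContDiff ℝ ∞ u) {e : ℝ} (he : 0 < e) (i : Fin n) (x : E n) :
    pd i (H46.sr u e) x = (∑ j, pd j u x * pd i (pd j u) x) / H46.sr u e x := by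
  have hg : DifferentiableAt ℝ (gsq u) x := (contDiff_gsq hu).differentiable (by simp) x
  have h0 : gsq u x + e ^ 2 ≠ 0 := (add_pos_of_nonneg_of_pos (gsq_nonneg u x) (pow_pos he 2)).ne'
  have := pd_sqrt (g := fun y => gsq u y + e ^ 2) i (hg.add_const _) h0
  unfold H46.sr
  rw [this, pd_add i hg (differentiableAt_const _), pd_const, H46.pd_gsq hu, add_zero]
  rw [mul_div_mul_left _ _ two_ne_zero]

/-- the vector field. -/
noncomputable def H46.Z (g w : ℝ → ℝ) (u : E n → ℝ) (e : ℝ) (i : Fin n) (x : E n) : ℝ :=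
  (rad (1 - (n : ℝ)) g x * w (u x)) *
    (H46.sr u e x * x i - cc u x * pd i u x / H46.sr u e x)

/-- the divergence. -/
noncomputable def H46.G (f g w : ℝ → ℝ) (u : E n → ℝ) (e : ℝ) (x : E n) : ℝ :=
  w (u x) * rad (-1 - (n : ℝ)) (fun t => (1 - (n : ℝ)) * g t + deriv g t) x *
      (H46.sr u e x * ‖x‖ ^ 2 - cc u x ^ 2 / H46.sr u e x)
    + rad (1 - (n : ℝ)) g x * deriv w (u x) * (cc u x * e ^ 2 / H46.sr u e x)
    + rad (1 - (n : ℝ)) g x * w (u x) * (n * H46.sr u e x - gsq u x / H46.sr u e x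
      + cc u x * (f (u x) * e ^ 2 + gsq u x * ∑ i, ∑ j, nu u i x * Wt f u i j x * nu u j x)
          / H46.sr u e x ^ 3)

theorem H46.div_Z (hn : 3 ≤ n) (h : Stable Ω f F u) {g w : ℝ → ℝ} (hg : Bump1 g)
    (hw : ContDiff ℝ 1 w)
    (hsub : ∀ x : E n, x ≠ 0 → Real.log ‖x‖ ∈ tsupport g → x ∈ Ω) {e : ℝ} (he : 0 < e) (x : E n) :
    ∑ i, pd i (H46.Z g w u e i) x = H46.G f g w u e x := by
  have hn' : (3 : ℝ) ≤ n := by exact_mod_cast hn
  have ha : 1 - (n : ℝ) ≠ 0 := by intro h'; linarith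
  have hg1 : ContDiff ℝ 1 g := hg.1.of_le (by exact_mod_cast le_top)
  have hu := h.smooth
  have hφ : Test Ω (rad (1 - (n : ℝ)) g) := test_rad ha hg hsub
  have hφd : DifferentiableAt ℝ (rad (1 - (n : ℝ)) g : E n → ℝ) x :=
    hφ.smooth.differentiable (by simp) x
  have hud : DifferentiableAt ℝ u x := hu.differentiable (by simp) x
  have hwd : DifferentiableAt ℝ w (u x) := hw.differentiable (by norm_num) _
  have hwu : DifferentiableAt ℝ (fun y => w (u y)) x := hwd.comp x hud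
  have hsd : DifferentiableAt ℝ (H46.sr u e) x := (H46.contDiff_sr hu he).differentiable (by simp) x
  have hcd : DifferentiableAt ℝ (cc u) x := (contDiff_cc hu).differentiable (by simp) x
  have hd : ∀ j : Fin n, DifferentiableAt ℝ (fun y : E n => y j) x := fun j =>
    (coord_contDiff j (m := 1)).differentiable (by norm_num) x
  have hd2 : ∀ j : Fin n, DifferentiableAt ℝ (pd j u) x := fun j =>
    (contDiff_pd_infty j hu).differentiable (by simp) x
  have hs0 : H46.sr u e x ≠ 0 := (H46.sr_pos u he x).ne'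
  have hs2 := H46.sr_sq u e x
  have hpφ : ∀ i : Fin n, pd i (rad (1 - (n : ℝ)) g) x =
      x i * rad (-1 - (n : ℝ)) (fun t => (1 - (n : ℝ)) * g t + deriv g t) x := by
    intro i
    rw [pd_rad ha hg1 hg.2 i x]
    congr 2
    ring
  set φ := rad (1 - (n : ℝ)) g x with hφx
  set φ1 := rad (-1 - (n : ℝ)) (fun t => (1 - (n : ℝ)) * g t + deriv g t) x with hφ1
  set s := H46.sr u e x with hs
  have key : ∀ i : Fin n, pd i (H46.Z g w u e i) x =
      (φ1 * w (u x) * s) * (x i * x i) - (φ1 * w (u x) * cc u x / s) * (x i * pd i u x)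
      + (φ * deriv w (u x) * s) * (x i * pd i u x)
      - (φ * deriv w (u x) * cc u x / s) * (pd i u x ^ 2)
      + (φ * w (u x) / s) * (x i * ∑ j, pd j u x * pd i (pd j u) x) + φ * w (u x) * s
      - (φ * w (u x) / s) * (pd i u x ^ 2)
      - (φ * w (u x) / s) * (pd i u x * ∑ j, x j * pd i (pd j u) x)
      - (φ * w (u x) * cc u x / s) * (pd i (pd i u) x)
      + (φ * w (u x) * cc u x / s ^ 3) * (pd i u x * ∑ j, pd j u x * pd i (pd j u) x) := by
    intro i
    have h1 : DifferentiableAt ℝ (fun y => rad (1 - (n : ℝ)) g y * w (u y)) x := hφd.mul hwu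
    have h2 : DifferentiableAt ℝ (fun y : E n => H46.sr u e y * y i) x := hsd.mul (hd i)
    have h3 : DifferentiableAt ℝ (fun y => cc u y * pd i u y) x := hcd.mul (hd2 i)
    have h4 : DifferentiableAt ℝ (fun y => cc u y * pd i u y / H46.sr u e y) x := by
      have hinv : DifferentiableAt ℝ (fun y => (H46.sr u e y)⁻¹) x := hsd.inv hs0
      simp only [div_eq_mul_inv]
      exact h3.fun_mul hinv
    have h24 : DifferentiableAt ℝ (fun y : E n => H46.sr u e y * y i -
        cc u y * pd i u y / H46.sr u e y) x := h2.fun_sub h4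
    unfold H46.Z
    rw [pd_mul i h1 h24, pd_mul i hφd hwu, pd_comp i hwd hud, hpφ i,
      pd_sub i h2 h4, pd_mul i hsd (hd i), pd_div i h3 hsd hs0, pd_mul i hcd (hd2 i),
      H46.pd_sr hu he, pd_cc hu, pd_coord, if_pos rfl]
    rw [← hs, ← hφx]
    field_simp
    ring
  simp_rw [key]
  simp only [Finset.sum_add_distrib, Finset.sum_sub_distrib, ← Finset.mul_sum, Finset.sum_const,
    Finset.card_univ, Fintype.card_fin, nsmul_eq_mul]
  have e1 : ∑ i, x i * x i = ‖x‖ ^ 2 := (H46.norm_sq_eq_sum x).symm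
  have e2 : ∑ i, x i * pd i u x = cc u x := rfl
  have e3 : ∑ i, pd i u x ^ 2 = gsq u x := rfl
  have e4 : ∑ i, pd i u x * ∑ j, x j * pd i (pd j u) x =
      ∑ i, x i * ∑ j, pd j u x * pd i (pd j u) x := by
    simp_rw [Finset.mul_sum]
    rw [Finset.sum_comm]
    refine Finset.sum_congr rfl fun i _ => Finset.sum_congr rfl fun j _ => ?_
    rw [pd_comm (hu.of_le two_le_infty) j i x]
    ring
  have e5 := H46.sum_pd_mul_K f u x
  rw [e1, e2, e3, e4, e5]
  unfold H46.G
  rw [← hs, ← hφx, ← hφ1]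
  set T := ∑ i, x i * ∑ j, pd j u x * pd i (pd j u) x
  set N := ∑ i, ∑ j, nu u i x * Wt f u i j x * nu u j x
  have e6 : φ * ∑ i, pd i (pd i u) x = φ * (- f (u x)) := by
    by_cases hx : x ∈ Ω
    · rw [h.eqn x hx]
    · rw [hφx, hφ.zero_of_notMem hx]; ring
  have e7 : φ * w (u x) * cc u x / s * ∑ i, pd i (pd i u) x =
      w (u x) * cc u x / s * (φ * (- f (u x))) := by
    rw [← e6]; ring
  have hs3 : s ^ 3 ≠ 0 := pow_ne_zero 3 hs0
  rw [e7]
  have he2 : e ^ 2 = s ^ 2 - gsq u x := by rw [hs2]; ring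
  rw [he2]
  field_simp
  ring

/-- the limit `e → 0`. -/
noncomputable def H46.G0 (f g w : ℝ → ℝ) (u : E n → ℝ) (x : E n) : ℝ :=
  w (u x) * rad (-1 - (n : ℝ)) (fun t => (1 - (n : ℝ)) * g t + deriv g t) x *
      (gr u x * ‖x‖ ^ 2 - cc u x * xnu u x)
    + rad (1 - (n : ℝ)) g x * w (u x) * ((n - 1) * gr u x
      + xnu u x * ∑ i, ∑ j, nu u i x * Wt f u i j x * nu u j x)

/-- pointwise convergence. -/
theorem H46.tendsto_G (f g w : ℝ → ℝ) (u : E n → ℝ) (x : E n) :
    Tendsto (fun e : ℝ => H46.G f g w u e x) (𝓝[>] 0) (𝓝 (H46.G0 f g w u x)) := by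
  by_cases hr : gr u x = 0
  · have hq : gsq u x = 0 := by rw [← gr_sq, hr]; norm_num
    have hc : cc u x = 0 := by rw [← gr_mul_xnu, hr, zero_mul]
    have hx : xnu u x = 0 := by
      unfold xnu
      exact Finset.sum_eq_zero fun i _ => by rw [nu_eq_zero u hr, mul_zero]
    have h0 : H46.G0 f g w u x = 0 := by
      unfold H46.G0; rw [hr, hc, hx]; ring
    rw [h0]
    have h1 : ∀ e : ℝ, 0 < e → H46.G f g w u e x =
        (w (u x) * rad (-1 - (n : ℝ)) (fun t => (1 - (n : ℝ)) * g t + deriv g t) x * ‖x‖ ^ 2 +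
          rad (1 - (n : ℝ)) g x * w (u x) * n) * e := by
      intro e he
      have hs : H46.sr u e x = e := by
        unfold H46.sr; rw [hq, zero_add, Real.sqrt_sq he.le]
      unfold H46.G
      rw [hs, hc, hq]
      simp only [zero_mul, zero_div, sub_zero, add_zero, mul_zero, ne_eq, OfNat.ofNat_ne_zero,
        not_false_eq_true, zero_pow]
      ring
    have h2 : Tendsto (fun e : ℝ =>
        (w (u x) * rad (-1 - (n : ℝ)) (fun t => (1 - (n : ℝ)) * g t + deriv g t) x * ‖x‖ ^ 2 +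
          rad (1 - (n : ℝ)) g x * w (u x) * n) * e) (𝓝[>] 0) (𝓝 0) := by
      have : Tendsto (fun e : ℝ =>
        (w (u x) * rad (-1 - (n : ℝ)) (fun t => (1 - (n : ℝ)) * g t + deriv g t) x * ‖x‖ ^ 2 +
          rad (1 - (n : ℝ)) g x * w (u x) * n) * e) (𝓝 0) (𝓝 (_ * 0)) :=
        tendsto_const_nhds.mul tendsto_id
      rw [mul_zero] at this
      exact this.mono_left nhdsWithin_le_nhds
    refine h2.congr' ?_
    filter_upwards [self_mem_nhdsWithin] with e he
    exact (h1 e he).symm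
  · have hrp : 0 < gr u x := lt_of_le_of_ne (gr_nonneg u x) (Ne.symm hr)
    have hs : Tendsto (fun e : ℝ => H46.sr u e x) (𝓝 0) (𝓝 (gr u x)) := by
      have : Continuous (fun e : ℝ => Real.sqrt (gsq u x + e ^ 2)) := by fun_prop
      have h := this.tendsto 0
      simpa [H46.sr, gr] using h
    have he : Tendsto (fun e : ℝ => e ^ 2) (𝓝 0) (𝓝 0) := by
      have : Continuous (fun e : ℝ => e ^ 2) := by fun_prop
      have h := this.tendsto 0
      simpa using h
    set A := w (u x) * rad (-1 - (n : ℝ)) (fun t => (1 - (n : ℝ)) * g t + deriv g t) x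
    set φ := rad (1 - (n : ℝ)) g x
    set N := ∑ i, ∑ j, nu u i x * Wt f u i j x * nu u j x
    have hlim : Tendsto (fun e : ℝ => H46.G f g w u e x) (𝓝 0)
        (𝓝 (A * (gr u x * ‖x‖ ^ 2 - cc u x ^ 2 / gr u x)
          + φ * deriv w (u x) * (cc u x * 0 / gr u x)
          + φ * w (u x) * (n * gr u x - gsq u x / gr u x
            + cc u x * (f (u x) * 0 + gsq u x * N) / gr u x ^ 3))) := by
      unfold H46.G
      refine ((Tendsto.add ?_ ?_).add ?_)
      · exact tendsto_const_nhds.mul ((hs.mul tendsto_const_nhds).sub (tendsto_const_nhds.div hs hr))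
      · exact tendsto_const_nhds.mul ((tendsto_const_nhds.mul he).div hs hr)
      · refine tendsto_const_nhds.mul (((tendsto_const_nhds.mul hs).sub
          (tendsto_const_nhds.div hs hr)).add ?_)
        exact (tendsto_const_nhds.mul ((tendsto_const_nhds.mul he).add tendsto_const_nhds)).div
          (hs.pow 3) (pow_ne_zero 3 hr)
    have hval : A * (gr u x * ‖x‖ ^ 2 - cc u x ^ 2 / gr u x)
          + φ * deriv w (u x) * (cc u x * 0 / gr u x)
          + φ * w (u x) * (n * gr u x - gsq u x / gr u x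
            + cc u x * (f (u x) * 0 + gsq u x * N) / gr u x ^ 3) = H46.G0 f g w u x := by
      have e1 : cc u x = gr u x * xnu u x := (gr_mul_xnu u x).symm
      have e2 : gsq u x = gr u x ^ 2 := (gr_sq u x).symm
      unfold H46.G0
      rw [e1, e2]
      field_simp
      ring
    rw [hval] at hlim
    exact hlim.mono_left nhdsWithin_le_nhds

/-- `|x·ν| ≤ ∑ |x_i|`. -/
theorem H46.abs_xnu_le (u : E n → ℝ) (x : E n) : |xnu u x| ≤ ∑ i, |x i| := by
  unfold xnu
  refine (Finset.abs_sum_le_sum_abs _ _).trans (Finset.sum_le_sum fun i _ => ?_)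
  rw [abs_mul]
  exact mul_le_of_le_one_right (abs_nonneg _) (abs_nu_le u i x)

/-- the bound for `νWν`. -/
noncomputable def H46.Wb (f : ℝ → ℝ) (u : E n → ℝ) (x : E n) : ℝ :=
  ∑ i, ∑ j, (|pd i (pd j u) x| + |f (u x)|)

theorem H46.abs_nWn_le (f : ℝ → ℝ) (u : E n → ℝ) (x : E n) :
    |∑ i, ∑ j, nu u i x * Wt f u i j x * nu u j x| ≤ H46.Wb f u x := by
  unfold H46.Wb
  refine (Finset.abs_sum_le_sum_abs _ _).trans (Finset.sum_le_sum fun i _ => ?_)
  refine (Finset.abs_sum_le_sum_abs _ _).trans (Finset.sum_le_sum fun j _ => ?_)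
  have h1 := abs_nu_le u i x
  have h2 := abs_nu_le u j x
  have h3 : |Wt f u i j x| ≤ |pd i (pd j u) x| + |f (u x)| := by
    unfold Wt
    refine (abs_add_le _ _).trans ?_
    have h3 : |f (u x) * nu u i x * nu u j x| ≤ |f (u x)| := by
      rw [abs_mul, abs_mul]
      have := abs_nonneg (f (u x))
      have h4 : |f (u x)| * |nu u i x| ≤ |f (u x)| := mul_le_of_le_one_right this h1
      exact (mul_le_of_le_one_right (by positivity) h2).trans h4
    linarith
  rw [abs_mul, abs_mul]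
  have h4 : |nu u i x| * |Wt f u i j x| ≤ |Wt f u i j x| := mul_le_of_le_one_left (abs_nonneg _) h1
  exact ((mul_le_of_le_one_right (by positivity) h2).trans h4).trans h3

/-- pointwise bound. -/
theorem H46.abs_G_le (f g w : ℝ → ℝ) (u : E n → ℝ) (x : E n) {e : ℝ} (he : 0 < e) (he1 : e ≤ 1) :
    |H46.G f g w u e x| ≤
      |rad (-1 - (n : ℝ)) (fun t => (1 - (n : ℝ)) * g t + deriv g t) x| *
        (|w (u x)| * (Real.sqrt (gsq u x + 1) * (‖x‖ ^ 2 + (∑ i, |x i|) ^ 2))) +
      |rad (1 - (n : ℝ)) g x| * (|deriv w (u x)| * (∑ i, |x i|) +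
        |w (u x)| * ((n + 1) * Real.sqrt (gsq u x + 1) +
          (∑ i, |x i|) * (|f (u x)| + H46.Wb f u x))) := by
  have hs := H46.sr_pos u he x
  have hs2 := H46.sr_sq u e x
  have hq := gsq_nonneg u x
  have hS : H46.sr u e x ≤ Real.sqrt (gsq u x + 1) := by
    unfold H46.sr
    refine Real.sqrt_le_sqrt ?_
    have : e ^ 2 ≤ 1 := pow_le_one₀ he.le he1
    linarith
  have hgs : gr u x ≤ H46.sr u e x := by
    unfold gr H46.sr
    exact Real.sqrt_le_sqrt (by have := sq_nonneg e; linarith)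
  have hX := H46.abs_xnu_le u x
  have hN := H46.abs_nWn_le f u x
  have hcX : |cc u x| ≤ H46.sr u e x * ∑ i, |x i| := by
    rw [← gr_mul_xnu, abs_mul, abs_of_nonneg (gr_nonneg u x)]
    exact mul_le_mul hgs hX (abs_nonneg _) hs.le
  have hX0 : 0 ≤ ∑ i, |x i| := Finset.sum_nonneg fun i _ => abs_nonneg _
  have hWb : 0 ≤ H46.Wb f u x := (abs_nonneg _).trans hN
  set s := H46.sr u e x with hsdef
  set S := Real.sqrt (gsq u x + 1)
  set X := ∑ i, |x i|
  set N := ∑ i, ∑ j, nu u i x * Wt f u i j x * nu u j x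
  set c := cc u x
  set q := gsq u x
  set φ1 := rad (-1 - (n : ℝ)) (fun t => (1 - (n : ℝ)) * g t + deriv g t) x
  set φ := rad (1 - (n : ℝ)) g x
  have hS0 : 0 ≤ S := Real.sqrt_nonneg _
  have hcs : |c| / s ≤ X := by
    rw [div_le_iff₀ hs]; linarith
  have hcs0 : 0 ≤ |c| / s := by positivity
  have b1 : |s * ‖x‖ ^ 2 - c ^ 2 / s| ≤ S * (‖x‖ ^ 2 + X ^ 2) := by
    have h1 : |c ^ 2 / s| ≤ s * X ^ 2 := by
      rw [abs_div, abs_of_pos hs, abs_pow, div_le_iff₀ hs]
      have : |c| ^ 2 ≤ (s * X) ^ 2 := pow_le_pow_left₀ (abs_nonneg _) hcX 2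
      calc |c| ^ 2 ≤ (s * X) ^ 2 := this
        _ = s * X ^ 2 * s := by ring
    have h2 : |s * ‖x‖ ^ 2| ≤ s * ‖x‖ ^ 2 := by
      rw [abs_of_nonneg (by positivity)]
    calc |s * ‖x‖ ^ 2 - c ^ 2 / s| ≤ |s * ‖x‖ ^ 2| + |c ^ 2 / s| := abs_sub _ _
      _ ≤ s * ‖x‖ ^ 2 + s * X ^ 2 := add_le_add h2 h1
      _ = s * (‖x‖ ^ 2 + X ^ 2) := by ring
      _ ≤ S * (‖x‖ ^ 2 + X ^ 2) := mul_le_mul_of_nonneg_right hS (by positivity)
  have b2 : |c * e ^ 2 / s| ≤ X := by
    have h1 : |c * e ^ 2 / s| = |c| / s * e ^ 2 := by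
      rw [abs_div, abs_mul, abs_of_pos hs, abs_of_nonneg (sq_nonneg e)]; ring
    rw [h1]
    have h2 : e ^ 2 ≤ 1 := pow_le_one₀ he.le he1
    calc |c| / s * e ^ 2 ≤ |c| / s * 1 := mul_le_mul_of_nonneg_left h2 hcs0
      _ ≤ X := by linarith
  have b3 : |(n : ℝ) * s - q / s + c * (f (u x) * e ^ 2 + q * N) / s ^ 3| ≤
      (n + 1) * S + X * (|f (u x)| + H46.Wb f u x) := by
    have h1 : |(n : ℝ) * s| ≤ n * S := by
      rw [abs_of_nonneg (by positivity)]
      exact mul_le_mul_of_nonneg_left hS (by positivity)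
    have h2 : |q / s| ≤ S := by
      rw [abs_of_nonneg (by positivity), div_le_iff₀ hs]
      have : q ≤ s * s := by nlinarith [sq_nonneg e]
      nlinarith
    have h3 : |c * (f (u x) * e ^ 2 + q * N) / s ^ 3| ≤ X * (|f (u x)| + H46.Wb f u x) := by
      have e1 : c * (f (u x) * e ^ 2 + q * N) / s ^ 3 =
          (c / s) * (f (u x) * (e ^ 2 / s ^ 2) + (q / s ^ 2) * N) := by
        field_simp
      rw [e1, abs_mul, abs_div, abs_of_pos hs]
      have h4 : e ^ 2 / s ^ 2 ≤ 1 := by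
        rw [div_le_one (by positivity)]; linarith
      have h5 : q / s ^ 2 ≤ 1 := by
        rw [div_le_one (by positivity)]; nlinarith [sq_nonneg e]
      have h6 : |f (u x) * (e ^ 2 / s ^ 2) + q / s ^ 2 * N| ≤ |f (u x)| + H46.Wb f u x := by
        refine (abs_add_le _ _).trans (add_le_add ?_ ?_)
        · rw [abs_mul, abs_of_nonneg (show (0:ℝ) ≤ e ^ 2 / s ^ 2 by positivity)]
          exact mul_le_of_le_one_right (abs_nonneg _) h4
        · rw [abs_mul, abs_of_nonneg (show (0:ℝ) ≤ q / s ^ 2 by positivity)]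
          exact (mul_le_of_le_one_left (abs_nonneg _) h5).trans hN
      exact mul_le_mul hcs h6 (abs_nonneg _) hX0
    calc |(n : ℝ) * s - q / s + c * (f (u x) * e ^ 2 + q * N) / s ^ 3|
        ≤ |(n : ℝ) * s - q / s| + |c * (f (u x) * e ^ 2 + q * N) / s ^ 3| := abs_add_le _ _
      _ ≤ (|(n : ℝ) * s| + |q / s|) + |c * (f (u x) * e ^ 2 + q * N) / s ^ 3| :=
          add_le_add (abs_sub _ _) le_rfl
      _ ≤ (n * S + S) + X * (|f (u x)| + H46.Wb f u x) := add_le_add (add_le_add h1 h2) h3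
      _ = (n + 1) * S + X * (|f (u x)| + H46.Wb f u x) := by ring
  unfold H46.G
  rw [← hsdef]
  refine (abs_add_le _ _).trans ?_
  have t1 : |w (u x) * φ1 * (s * ‖x‖ ^ 2 - c ^ 2 / s)| ≤
      |φ1| * (|w (u x)| * (S * (‖x‖ ^ 2 + X ^ 2))) := by
    rw [abs_mul, abs_mul]
    calc |w (u x)| * |φ1| * |s * ‖x‖ ^ 2 - c ^ 2 / s|
        ≤ |w (u x)| * |φ1| * (S * (‖x‖ ^ 2 + X ^ 2)) := mul_le_mul_of_nonneg_left b1 (by positivity)
      _ = _ := by ring
  have t2 : |φ * deriv w (u x) * (c * e ^ 2 / s)| ≤ |φ| * (|deriv w (u x)| * X) := by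
    rw [abs_mul, abs_mul]
    calc |φ| * |deriv w (u x)| * |c * e ^ 2 / s| ≤ |φ| * |deriv w (u x)| * X :=
          mul_le_mul_of_nonneg_left b2 (by positivity)
      _ = _ := by ring
  have t3 : |φ * w (u x) * ((n : ℝ) * s - q / s + c * (f (u x) * e ^ 2 + q * N) / s ^ 3)| ≤
      |φ| * (|w (u x)| * ((n + 1) * S + X * (|f (u x)| + H46.Wb f u x))) := by
    rw [abs_mul, abs_mul]
    calc |φ| * |w (u x)| * |(n : ℝ) * s - q / s + c * (f (u x) * e ^ 2 + q * N) / s ^ 3|
        ≤ |φ| * |w (u x)| * ((n + 1) * S + X * (|f (u x)| + H46.Wb f u x)) :=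
          mul_le_mul_of_nonneg_left b3 (by positivity)
      _ = _ := by ring
  calc |w (u x) * φ1 * (s * ‖x‖ ^ 2 - c ^ 2 / s) + φ * deriv w (u x) * (c * e ^ 2 / s)| +
        |φ * w (u x) * ((n : ℝ) * s - q / s + c * (f (u x) * e ^ 2 + q * N) / s ^ 3)|
      ≤ (|w (u x) * φ1 * (s * ‖x‖ ^ 2 - c ^ 2 / s)| + |φ * deriv w (u x) * (c * e ^ 2 / s)|) +
        |φ * w (u x) * ((n : ℝ) * s - q / s + c * (f (u x) * e ^ 2 + q * N) / s ^ 3)| :=
        add_le_add (abs_add_le _ _) le_rfl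
    _ ≤ (|φ1| * (|w (u x)| * (S * (‖x‖ ^ 2 + X ^ 2))) + |φ| * (|deriv w (u x)| * X)) +
        |φ| * (|w (u x)| * ((n + 1) * S + X * (|f (u x)| + H46.Wb f u x))) :=
        add_le_add (add_le_add t1 t2) t3
    _ = _ := by ring

theorem transport (hn : 3 ≤ n) (h : Stable Ω f F u) {g w : ℝ → ℝ} (hg : Bump1 g)
    (hw : ContDiff ℝ 1 w)
    (hsub : ∀ x : E n, x ≠ 0 → Real.log ‖x‖ ∈ tsupport g → x ∈ Ω) :
    ∫ x, ‖x‖ ^ (1 - (n : ℝ)) * deriv g (Real.log ‖x‖) * w (u x) * gr u x =
      ∫ x, xnu u x * w (u x) *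
        (cc u x * ‖x‖ ^ (-1 - (n : ℝ)) *
            ((1 - (n : ℝ)) * g (Real.log ‖x‖) + deriv g (Real.log ‖x‖))
          - ‖x‖ ^ (1 - (n : ℝ)) * g (Real.log ‖x‖) * ∑ i, ∑ j, nu u i x * Wt f u i j x * nu u j x) := by
  have hn' : (3 : ℝ) ≤ n := by exact_mod_cast hn
  have ha : 1 - (n : ℝ) ≠ 0 := by intro h'; linarith
  have ha1 : -1 - (n : ℝ) ≠ 0 := by intro h'; linarith
  have hg1 : ContDiff ℝ 1 g := hg.1.of_le (by exact_mod_cast le_top)
  have hu := h.smooth
  have hu1 : ContDiff ℝ 1 u := hu.of_le (by exact_mod_cast le_top)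
  have hdg : Continuous (deriv g) := hg1.continuous_deriv (by norm_num)
  have hdc : HasCompactSupport (deriv g) := hg.2.deriv
  have hgk : HasCompactSupport (fun t => (1 - (n : ℝ)) * g t + deriv g t) :=
    (hg.2.mul_left (f := fun _ => 1 - (n : ℝ))).add hdc
  have hgkc : Continuous (fun t => (1 - (n : ℝ)) * g t + deriv g t) :=
    (continuous_const.mul hg1.continuous).add hdg
  have hφT : Test Ω (rad (1 - (n : ℝ)) g) := test_rad ha hg hsub
  -- regularised identity
  have hZ0 : ∀ e : ℝ, 0 < e → ∫ x, ∑ i, pd i (H46.Z g w u e i) x = 0 := by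
    intro e he
    have hsm : ContDiff ℝ 1 (H46.sr u e) := (H46.contDiff_sr hu he).of_le (by exact_mod_cast le_top)
    have hZc : ∀ i : Fin n, ContDiff ℝ 1 (H46.Z g w u e i) := by
      intro i
      unfold H46.Z
      refine (hφT.c1.mul (hw.comp hu1)).mul ((hsm.mul (coord_contDiff i)).sub ?_)
      refine ContDiff.div ?_ hsm fun x => (H46.sr_pos u he x).ne'
      exact ((contDiff_cc hu).of_le (by exact_mod_cast le_top)).mul
        ((contDiff_pd_infty i hu).of_le (by exact_mod_cast le_top))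
    have hZs : ∀ i : Fin n, HasCompactSupport (H46.Z g w u e i) := fun i =>
      (hφT.compact.mul_right).mul_right
    rw [integral_finsetSum _ fun i _ => (continuous_pd i (hZc i)).integrable_of_hasCompactSupport
      (HasCompactSupport.pd' i (hZs i))]
    exact Finset.sum_eq_zero fun i _ => integral_pd_eq_zero i (hZc i) (hZs i)
  have hmeas : ∀ e : ℝ, 0 < e → AEStronglyMeasurable (H46.G f g w u e) volume := by
    intro e he
    have hsm : ContDiff ℝ 1 (H46.sr u e) := (H46.contDiff_sr hu he).of_le (by exact_mod_cast le_top)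
    have hZc : ∀ i : Fin n, ContDiff ℝ 1 (H46.Z g w u e i) := by
      intro i
      unfold H46.Z
      refine (hφT.c1.mul (hw.comp hu1)).mul ((hsm.mul (coord_contDiff i)).sub ?_)
      refine ContDiff.div ?_ hsm fun x => (H46.sr_pos u he x).ne'
      exact ((contDiff_cc hu).of_le (by exact_mod_cast le_top)).mul
        ((contDiff_pd_infty i hu).of_le (by exact_mod_cast le_top))
    have : H46.G f g w u e = fun x => ∑ i, pd i (H46.Z g w u e i) x :=
      funext fun x => (H46.div_Z hn h hg hw hsub he x).symm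
    rw [this]
    exact (continuous_finsetSum _ fun i _ => continuous_pd i (hZc i)).aestronglyMeasurable
  have hG0 : ∀ e : ℝ, 0 < e → ∫ x, H46.G f g w u e x = 0 := by
    intro e he
    rw [← hZ0 e he]
    congr 1
    ext x
    exact (H46.div_Z hn h hg hw hsub he x).symm
  -- dominating function
  have hgc : Continuous (gsq u) := (contDiff_gsq hu).continuous
  have hXc : Continuous (fun x : E n => ∑ i, |x i|) :=
    continuous_finsetSum _ fun i _ => ((coord_contDiff i (m := 0)).continuous).abs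
  have hSc : Continuous (fun x : E n => Real.sqrt (gsq u x + 1)) :=
    (hgc.add continuous_const).sqrt
  have hfc : Continuous (fun x : E n => |f (u x)|) := (h.f_C1.continuous.comp h.continuous).abs
  have hwc : Continuous (fun x : E n => |w (u x)|) := (hw.continuous.comp h.continuous).abs
  have hdwc : Continuous (fun x : E n => |deriv w (u x)|) :=
    ((hw.continuous_deriv (by norm_num)).comp h.continuous).abs
  have hWbc : Continuous (H46.Wb f u) := by
    unfold H46.Wb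
    exact continuous_finsetSum _ fun i _ => continuous_finsetSum _ fun j _ =>
      ((contDiff_pd_infty i (contDiff_pd_infty j hu)).continuous.abs).add hfc
  set B : E n → ℝ := fun x =>
      |rad (-1 - (n : ℝ)) (fun t => (1 - (n : ℝ)) * g t + deriv g t) x| *
        (|w (u x)| * (Real.sqrt (gsq u x + 1) * (‖x‖ ^ 2 + (∑ i, |x i|) ^ 2))) +
      |rad (1 - (n : ℝ)) g x| * (|deriv w (u x)| * (∑ i, |x i|) +
        |w (u x)| * ((n + 1) * Real.sqrt (gsq u x + 1) +
          (∑ i, |x i|) * (|f (u x)| + H46.Wb f u x))) with hB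
  have hBint : Integrable B volume := by
    refine Integrable.add ?_ ?_
    · refine (((continuous_rad ha1 hgkc hgk).abs).mul (hwc.mul (hSc.mul
        ((continuous_norm.pow 2).add (hXc.pow 2))))).integrable_of_hasCompactSupport ?_
      exact ((compact_rad ha1 hgk).norm).mul_right
    · refine ((hφT.continuous.abs).mul ((hdwc.mul hXc).add (hwc.mul
        ((continuous_const.mul hSc).add (hXc.mul (hfc.add hWbc)))))).integrable_of_hasCompactSupport ?_
      exact (hφT.compact.norm).mul_right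
  -- sequence
  set ε : ℕ → ℝ := fun k => 1 / ((k : ℝ) + 1) with hε
  have hεpos : ∀ k, 0 < ε k := fun k => by rw [hε]; positivity
  have hεle : ∀ k, ε k ≤ 1 := fun k => by
    rw [hε]
    show 1 / ((k : ℝ) + 1) ≤ 1
    rw [div_le_one (by positivity)]
    have : (0 : ℝ) ≤ k := Nat.cast_nonneg k
    linarith
  have hεt : Tendsto ε atTop (𝓝[>] 0) := by
    rw [tendsto_nhdsWithin_iff]
    exact ⟨tendsto_one_div_add_atTop_nhds_zero_nat, Filter.Eventually.of_forall hεpos⟩
  have hlim := tendsto_integral_of_dominated_convergence (μ := (volume : Measure (E n)))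
    (F := fun k => H46.G f g w u (ε k)) (f := H46.G0 f g w u) B
    (fun k => hmeas _ (hεpos k)) hBint
    (fun k => Filter.Eventually.of_forall fun x => by
      rw [Real.norm_eq_abs]; exact H46.abs_G_le f g w u x (hεpos k) (hεle k))
    (Filter.Eventually.of_forall fun x => (H46.tendsto_G f g w u x).comp hεt)
  have hz : ∀ k, ∫ x, H46.G f g w u (ε k) x = 0 := fun k => hG0 _ (hεpos k)
  simp_rw [hz] at hlim
  have hG0z : ∫ x, H46.G0 f g w u x = 0 := (tendsto_nhds_unique hlim tendsto_const_nhds)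
  have hG0m : AEStronglyMeasurable (H46.G0 f g w u) volume :=
    aestronglyMeasurable_of_tendsto_ae atTop (fun k => hmeas _ (hεpos k))
      (Filter.Eventually.of_forall fun x => (H46.tendsto_G f g w u x).comp hεt)
  have hG0i : Integrable (H46.G0 f g w u) volume := by
    refine hBint.mono' hG0m (Filter.Eventually.of_forall fun x => ?_)
    have h1 := ((H46.tendsto_G f g w u x).comp hεt).norm
    refine le_of_tendsto h1 (Filter.Eventually.of_forall fun k => ?_)
    show ‖H46.G f g w u (ε k) x‖ ≤ B x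
    rw [Real.norm_eq_abs]; exact H46.abs_G_le f g w u x (hεpos k) (hεle k)
  -- conclusion
  have hL : Integrable (fun x : E n =>
      ‖x‖ ^ (1 - (n : ℝ)) * deriv g (Real.log ‖x‖) * w (u x) * gr u x) volume := by
    have hc1 : Continuous (rad (1 - (n : ℝ)) (deriv g) : E n → ℝ) := continuous_rad ha hdg hdc
    have : (fun x : E n => ‖x‖ ^ (1 - (n : ℝ)) * deriv g (Real.log ‖x‖) * w (u x) * gr u x) =
        fun x => rad (1 - (n : ℝ)) (deriv g) x * (w (u x) * gr u x) := by
      ext x; unfold rad; ring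
    rw [this]
    exact (hc1.mul ((hw.continuous.comp h.continuous).mul
      (continuous_gr hu1))).integrable_of_hasCompactSupport (compact_rad ha hdc).mul_right
  have hpt : ∀ x : E n, xnu u x * w (u x) *
        (cc u x * ‖x‖ ^ (-1 - (n : ℝ)) *
            ((1 - (n : ℝ)) * g (Real.log ‖x‖) + deriv g (Real.log ‖x‖))
          - ‖x‖ ^ (1 - (n : ℝ)) * g (Real.log ‖x‖) * ∑ i, ∑ j, nu u i x * Wt f u i j x * nu u j x)
      = ‖x‖ ^ (1 - (n : ℝ)) * deriv g (Real.log ‖x‖) * w (u x) * gr u x - H46.G0 f g w u x := by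
    intro x
    have e1 : ‖x‖ ^ 2 * rad (-1 - (n : ℝ)) (fun t => (1 - (n : ℝ)) * g t + deriv g t) x =
        ‖x‖ ^ (1 - (n : ℝ)) * ((1 - (n : ℝ)) * g (Real.log ‖x‖) + deriv g (Real.log ‖x‖)) := by
      have := H46.sq_mul_rad ha (fun t => (1 - (n : ℝ)) * g t + deriv g t) x
      have h2 : (1 : ℝ) - n - 2 = -1 - n := by ring
      rw [h2] at this
      rw [this]
      rfl
    have e2 : H46.G0 f g w u x =
        w (u x) * gr u x *
          (‖x‖ ^ 2 * rad (-1 - (n : ℝ)) (fun t => (1 - (n : ℝ)) * g t + deriv g t) x)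
        - w (u x) * cc u x * xnu u x *
          rad (-1 - (n : ℝ)) (fun t => (1 - (n : ℝ)) * g t + deriv g t) x
        + rad (1 - (n : ℝ)) g x * w (u x) * ((n - 1) * gr u x
      + xnu u x * ∑ i, ∑ j, nu u i x * Wt f u i j x * nu u j x) := by
      unfold H46.G0; ring
    rw [e2, e1]
    unfold rad
    ring
  simp_rw [hpt]
  rw [integral_sub hL hG0i, hG0z, sub_zero]

end Pool.Agent.H94.Stab
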