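import Pool.Agent.H94.Stab.Calc2

/-!
# Radial functions `|x|^a g(log|x|)` for MP_de3e90_an
-/

set_option autoImplicit false

open MeasureTheory Set Filter Topology
open scoped ContDiff

namespace Pool.Agent.H94.Stab.H46

open Pool.Agent.H94.Stab

variable {n : ℕ}

/-- radial function `|x|^a g(log|x|)`. -/
noncomputable def rad (a : ℝ) (g : ℝ → ℝ) (x : E n) : ℝ := ‖x‖ ^ a * g (Real.log ‖x‖)

theorem rad_zero {a : ℝ} (ha : a ≠ 0) (g : ℝ → ℝ) : rad a g (0 : E n) = 0 := by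
  unfold rad
  rw [norm_zero, Real.zero_rpow ha, zero_mul]

/-- closed set containing the support. -/
def Kg (n : ℕ) (g : ℝ → ℝ) : Set (E n) := {x | ‖x‖ ∈ Real.exp '' tsupport g}

theorem isCompact_Kg {g : ℝ → ℝ} (hg : HasCompactSupport g) : IsCompact (Kg n g) := by
  have hc : IsCompact (Real.exp '' tsupport g) := hg.isCompact.image Real.continuous_exp
  have hcl : IsClosed (Kg n g) := hc.isClosed.preimage continuous_norm
  obtain ⟨R, hR⟩ := hc.isBounded.subset_closedBall (0 : ℝ)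
  refine (isCompact_closedBall (0 : E n) R).of_isClosed_subset hcl ?_
  intro x hx
  have := hR hx
  simpa using this

theorem mem_Kg_iff {g : ℝ → ℝ} {x : E n} :
    x ∈ Kg n g ↔ x ≠ 0 ∧ Real.log ‖x‖ ∈ tsupport g := by
  constructor
  · rintro ⟨t, ht, hx⟩
    have h0 : 0 < ‖x‖ := hx ▸ Real.exp_pos t
    refine ⟨norm_pos_iff.1 h0, ?_⟩
    rw [← hx, Real.log_exp]; exact ht
  · rintro ⟨h0, ht⟩
    exact ⟨_, ht, Real.exp_log (norm_pos_iff.2 h0)⟩

theorem tsupport_rad_subset {a : ℝ} (ha : a ≠ 0) {g : ℝ → ℝ} (hg : HasCompactSupport g) :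
    tsupport (rad a g : E n → ℝ) ⊆ Kg n g := by
  refine closure_minimal ?_ (isCompact_Kg hg).isClosed
  intro x hx
  rw [mem_Kg_iff]
  have hx0 : x ≠ 0 := by
    rintro rfl
    exact hx (rad_zero ha g)
  refine ⟨hx0, ?_⟩
  apply subset_tsupport
  intro h
  apply hx
  unfold rad
  rw [h, mul_zero]

theorem compact_rad {a : ℝ} (ha : a ≠ 0) {g : ℝ → ℝ} (hg : HasCompactSupport g) :
    HasCompactSupport (rad a g : E n → ℝ) :=
  (isCompact_Kg hg).of_isClosed_subset (isClosed_tsupport _) (tsupport_rad_subset ha hg)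

theorem rad_eventually_zero {a : ℝ} (ha : a ≠ 0) {g : ℝ → ℝ} (hg : HasCompactSupport g) {x : E n}
    (hx : x ∉ Kg n g) : rad a g =ᶠ[𝓝 x] fun _ : E n => (0 : ℝ) := by
  filter_upwards [(isCompact_Kg hg).isClosed.isOpen_compl.mem_nhds hx] with y hy
  exact image_eq_zero_of_notMem_tsupport fun h => hy (tsupport_rad_subset ha hg h)

theorem zero_notMem_Kg (g : ℝ → ℝ) : (0 : E n) ∉ Kg n g := fun h => (mem_Kg_iff.1 h).1 rfl

theorem contDiffAt_norm' {x : E n} (hx : x ≠ 0) : ContDiffAt ℝ ∞ (fun y : E n => ‖y‖) x :=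
  contDiffAt_norm ℝ hx

theorem contDiffAt_rad {a : ℝ} {m : WithTop ℕ∞} (hm : m ≤ ∞) {g : ℝ → ℝ} (hg : ContDiff ℝ m g)
    {x : E n} (hx : x ≠ 0) : ContDiffAt ℝ m (rad a g : E n → ℝ) x := by
  have hn : ContDiffAt ℝ m (fun y : E n => ‖y‖) x := (contDiffAt_norm' hx).of_le hm
  have hpos : ‖x‖ ≠ 0 := norm_ne_zero_iff.2 hx
  refine ContDiffAt.mul ?_ ?_
  · exact hn.rpow_const_of_ne hpos
  · exact hg.contDiffAt.comp x (hn.log hpos)

theorem contDiff_rad {a : ℝ} (ha : a ≠ 0) {m : WithTop ℕ∞} (hm : m ≤ ∞) {g : ℝ → ℝ}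
    (hg : ContDiff ℝ m g) (hc : HasCompactSupport g) : ContDiff ℝ m (rad a g : E n → ℝ) := by
  rw [contDiff_iff_contDiffAt]
  intro x
  by_cases hx : x = 0
  · subst hx
    exact contDiffAt_const.congr_of_eventuallyEq (rad_eventually_zero ha hc (zero_notMem_Kg g))
  · exact contDiffAt_rad hm hg hx

theorem test_rad {a : ℝ} (ha : a ≠ 0) {g : ℝ → ℝ} (hg : Bump1 g) {Ω : Set (E n)}
    (hsub : ∀ x : E n, x ≠ 0 → Real.log ‖x‖ ∈ tsupport g → x ∈ Ω) : Test Ω (rad a g) :=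
  ⟨contDiff_rad ha le_rfl hg.1 hg.2, compact_rad ha hg.2, fun x hx => by
    have := mem_Kg_iff.1 (tsupport_rad_subset ha hg.2 hx)
    exact hsub x this.1 this.2⟩

theorem pd_norm {x : E n} (hx : x ≠ 0) (i : Fin n) : pd i (fun y : E n => ‖y‖) x = x i / ‖x‖ := by
  have h1 : (fun y : E n => ‖y‖) = fun y : E n => Real.sqrt (∑ j, y j ^ 2) := by
    ext y
    rw [EuclideanSpace.norm_eq]
    simp
  have h0 : (∑ j, x j ^ 2) ≠ 0 := by
    have : ‖x‖ ^ 2 = ∑ j, x j ^ 2 := by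
      rw [EuclideanSpace.norm_sq_eq]; simp
    rw [← this]; exact pow_ne_zero 2 (norm_ne_zero_iff.2 hx)
  have hd : ∀ j : Fin n, DifferentiableAt ℝ (fun y : E n => y j) x := fun j =>
    (coord_contDiff j (m := 1)).differentiable (by norm_num) x
  have hx' : ‖x‖ = Real.sqrt (∑ j, x j ^ 2) := congrFun h1 x
  have hds : DifferentiableAt ℝ (fun y : E n => ∑ j, y j ^ 2) x :=
    DifferentiableAt.fun_sum fun j _ => (hd j).pow 2
  rw [h1, pd_sqrt (g := fun y : E n => ∑ j, y j ^ 2) i hds h0,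
    pd_sum (g := fun j (y : E n) => y j ^ 2) i (fun j _ => (hd j).pow 2), hx']
  have e : ∀ j, pd i (fun y : E n => y j ^ 2) x = if i = j then 2 * x j else 0 := by
    intro j
    rw [pd_sq i (hd j), pd_coord]
    split_ifs <;> ring
  simp_rw [e]
  rw [Finset.sum_ite_eq, if_pos (Finset.mem_univ i)]
  rw [mul_div_mul_left _ _ two_ne_zero]

theorem differentiableAt_norm' {x : E n} (hx : x ≠ 0) :
    DifferentiableAt ℝ (fun y : E n => ‖y‖) x :=
  (contDiffAt_norm' hx).differentiableAt (by simp)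

theorem pd_rad {a : ℝ} (ha : a ≠ 0) {g : ℝ → ℝ} (hg : ContDiff ℝ 1 g) (hc : HasCompactSupport g)
    (i : Fin n) (x : E n) :
    pd i (rad a g) x = x i * rad (a - 2) (fun t => a * g t + deriv g t) x := by
  by_cases hx : x = 0
  · subst hx
    rw [pd_congr_nhds i (rad_eventually_zero ha hc (zero_notMem_Kg g)), pd_const]
    simp
  · have hpos : 0 < ‖x‖ := norm_pos_iff.2 hx
    have hder : HasDerivAt (fun ρ : ℝ => ρ ^ a * g (Real.log ρ))
        (a * ‖x‖ ^ (a - 1) * g (Real.log ‖x‖) + ‖x‖ ^ a * (deriv g (Real.log ‖x‖) * ‖x‖⁻¹)) ‖x‖ := by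
      refine (Real.hasDerivAt_rpow_const (Or.inl hpos.ne')).mul ?_
      exact ((hg.differentiable (by norm_num) _).hasDerivAt).comp ‖x‖ (Real.hasDerivAt_log hpos.ne')
    have := pd_comp' (φ := fun ρ : ℝ => ρ ^ a * g (Real.log ρ)) (g := fun y : E n => ‖y‖) i hder
      (differentiableAt_norm' hx)
    unfold rad
    rw [this, pd_norm hx]
    have e1 : ‖x‖ ^ (a - 1) = ‖x‖ ^ (a - 2) * ‖x‖ := by
      rw [← Real.rpow_add_one hpos.ne']; congr 1; ring
    have e2 : ‖x‖ ^ a = ‖x‖ ^ (a - 2) * ‖x‖ * ‖x‖ := by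
      rw [← Real.rpow_add_one hpos.ne', ← Real.rpow_add_one hpos.ne']; congr 1; ring
    rw [e1, e2]
    field_simp

/-- measurable / continuous facts. -/
theorem continuous_rad {a : ℝ} (ha : a ≠ 0) {g : ℝ → ℝ} (hg : Continuous g)
    (hc : HasCompactSupport g) : Continuous (rad a g : E n → ℝ) :=
  (contDiff_rad (m := 0) ha (by simp) (contDiff_zero.2 hg) hc).continuous

end Pool.Agent.H94.Stab.H46
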